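import Pool.Agent.H25.DP.Targets3

/-!
# (BLK) the bilinear form over one dyadic range of `k`
-/

set_option autoImplicit false

open Complex MeasureTheory Set Filter Topology

namespace Pool.Agent.H67.DP.BLK

open Pool.Agent.H25.DL Pool.Agent.H25.DP

/-! ### Cauchy-Schwarz -/

/-- the square of a sum of products as a double sum -/
lemma sq_sum_eq (P : Finset ℕ) (γ g : ℕ → ℂ) :
    ((‖∑ p ∈ P, γ p * g p‖ ^ 2 : ℝ) : ℂ) =
      ∑ p ∈ P, ∑ p' ∈ P, γ p * (starRingEnd ℂ) (γ p') * (g p * (starRingEnd ℂ) (g p')) := by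
  have h1 : ((‖∑ p ∈ P, γ p * g p‖ ^ 2 : ℝ) : ℂ) =
      (∑ p ∈ P, γ p * g p) * (starRingEnd ℂ) (∑ p ∈ P, γ p * g p) := by
    rw [Complex.mul_conj, Complex.normSq_eq_norm_sq]
  rw [h1, map_sum, Finset.sum_mul_sum]
  refine Finset.sum_congr rfl fun p _ => Finset.sum_congr rfl fun p' _ => ?_
  rw [map_mul]
  ring

lemma quad (Q P : Finset ℕ) (γ : ℕ → ℂ) (g : ℕ → ℕ → ℂ) (hγ : ∀ p, ‖γ p‖ ≤ 1) :
    ∑ k ∈ Q, ‖∑ p ∈ P, γ p * g k p‖ ^ 2 ≤
      ∑ p ∈ P, ∑ p' ∈ P, ‖∑ k ∈ Q, g k p * (starRingEnd ℂ) (g k p')‖ := by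
  have h1 : ((∑ k ∈ Q, ‖∑ p ∈ P, γ p * g k p‖ ^ 2 : ℝ) : ℂ) =
      ∑ p ∈ P, ∑ p' ∈ P, γ p * (starRingEnd ℂ) (γ p') *
        ∑ k ∈ Q, g k p * (starRingEnd ℂ) (g k p') := by
    rw [Complex.ofReal_sum]
    simp_rw [sq_sum_eq]
    rw [Finset.sum_comm]
    refine Finset.sum_congr rfl fun p _ => ?_
    rw [Finset.sum_comm]
    refine Finset.sum_congr rfl fun p' _ => ?_
    rw [Finset.mul_sum]
  have h2 : ‖((∑ k ∈ Q, ‖∑ p ∈ P, γ p * g k p‖ ^ 2 : ℝ) : ℂ)‖ =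
      ∑ k ∈ Q, ‖∑ p ∈ P, γ p * g k p‖ ^ 2 := by
    rw [Complex.norm_real, Real.norm_of_nonneg (Finset.sum_nonneg fun _ _ => by positivity)]
  rw [← h2, h1]
  refine (norm_sum_le _ _).trans (Finset.sum_le_sum fun p _ => ?_)
  refine (norm_sum_le _ _).trans (Finset.sum_le_sum fun p' _ => ?_)
  rw [norm_mul, norm_mul, RCLike.norm_conj]
  have h3 := hγ p
  have h4 := hγ p'
  have h5 : ‖γ p‖ * ‖γ p'‖ ≤ 1 := by
    calc ‖γ p‖ * ‖γ p'‖ ≤ 1 * 1 := by gcongr
      _ = 1 := one_mul 1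
  calc ‖γ p‖ * ‖γ p'‖ * ‖∑ k ∈ Q, g k p * (starRingEnd ℂ) (g k p')‖
      ≤ 1 * ‖∑ k ∈ Q, g k p * (starRingEnd ℂ) (g k p')‖ := by gcongr
    _ = _ := one_mul _

/-- the bilinear form with general kernel -/
lemma bilin (N Q P : Finset ℕ) (α β γ : ℕ → ℂ) (g : ℕ → ℕ → ℕ → ℂ) (R : ℝ)
    (hα : ∀ n, ‖α n‖ ≤ 1) (hβ : ∀ n, ‖β n‖ ≤ 1) (hγ : ∀ p, ‖γ p‖ ≤ 1)
    (hR : ∀ n ∈ N, ∑ p ∈ P, ∑ p' ∈ P, ‖∑ k ∈ Q, g n k p * (starRingEnd ℂ) (g n k p')‖ ≤ R) :
    ‖∑ n ∈ N, ∑ k ∈ Q, ∑ p ∈ P, α n * β k * γ p * g n k p‖ ^ 2 ≤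
      ((N.card : ℝ) * Q.card) * (N.card * R) := by
  have h1 : ‖∑ n ∈ N, ∑ k ∈ Q, ∑ p ∈ P, α n * β k * γ p * g n k p‖ ≤
      ∑ q ∈ N ×ˢ Q, ‖∑ p ∈ P, γ p * g q.1 q.2 p‖ := by
    rw [Finset.sum_product]
    refine (norm_sum_le _ _).trans (Finset.sum_le_sum fun n _ => ?_)
    refine (norm_sum_le _ _).trans (Finset.sum_le_sum fun k _ => ?_)
    have h2 : ∑ p ∈ P, α n * β k * γ p * g n k p = α n * β k * ∑ p ∈ P, γ p * g n k p := by
      rw [Finset.mul_sum]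
      refine Finset.sum_congr rfl fun p _ => ?_
      ring
    rw [h2, norm_mul, norm_mul]
    have h5 : ‖α n‖ * ‖β k‖ ≤ 1 := by
      have := hα n
      have := hβ k
      calc ‖α n‖ * ‖β k‖ ≤ 1 * 1 := by gcongr
        _ = 1 := one_mul 1
    calc ‖α n‖ * ‖β k‖ * ‖∑ p ∈ P, γ p * g n k p‖ ≤ 1 * ‖∑ p ∈ P, γ p * g n k p‖ := by gcongr
      _ = _ := one_mul _
  have h3 : (∑ q ∈ N ×ˢ Q, ‖∑ p ∈ P, γ p * g q.1 q.2 p‖) ^ 2 ≤
      ((N ×ˢ Q).card : ℝ) * ∑ q ∈ N ×ˢ Q, ‖∑ p ∈ P, γ p * g q.1 q.2 p‖ ^ 2 :=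
    sq_sum_le_card_mul_sum_sq
  have h4 : ∑ q ∈ N ×ˢ Q, ‖∑ p ∈ P, γ p * g q.1 q.2 p‖ ^ 2 ≤ N.card * R := by
    rw [Finset.sum_product, ← nsmul_eq_mul, ← Finset.sum_const]
    refine Finset.sum_le_sum fun n hn => ?_
    exact (quad Q P γ (g n) hγ).trans (hR n hn)
  have h6 : 0 ≤ ‖∑ n ∈ N, ∑ k ∈ Q, ∑ p ∈ P, α n * β k * γ p * g n k p‖ := norm_nonneg _
  calc ‖∑ n ∈ N, ∑ k ∈ Q, ∑ p ∈ P, α n * β k * γ p * g n k p‖ ^ 2
      ≤ (∑ q ∈ N ×ˢ Q, ‖∑ p ∈ P, γ p * g q.1 q.2 p‖) ^ 2 := by gcongr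
    _ ≤ ((N ×ˢ Q).card : ℝ) * ∑ q ∈ N ×ˢ Q, ‖∑ p ∈ P, γ p * g q.1 q.2 p‖ ^ 2 := h3
    _ ≤ ((N ×ˢ Q).card : ℝ) * (N.card * R) := by gcongr
    _ = _ := by rw [Finset.card_product]; push_cast; ring

/-! ### The sum over pairs -/

lemma inv_sqrt_le {x : ℝ} (hx : 1 ≤ x) : 1 / Real.sqrt x ≤ 2 * (Real.sqrt x - Real.sqrt (x - 1)) := by
  have h1 : 0 < Real.sqrt x := Real.sqrt_pos.2 (by linarith)
  have h2 : 0 ≤ Real.sqrt (x - 1) := Real.sqrt_nonneg _
  have h3 : Real.sqrt x ^ 2 = x := Real.sq_sqrt (by linarith)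
  have h4 : Real.sqrt (x - 1) ^ 2 = x - 1 := Real.sq_sqrt (by linarith)
  have h5 : Real.sqrt (x - 1) ≤ Real.sqrt x := Real.sqrt_le_sqrt (by linarith)
  rw [div_le_iff₀ h1]
  nlinarith

/-- the sum over the points on the left -/
lemma sum_left (a p : ℕ) (hap : a ≤ p) :
    ∑ q ∈ Finset.Ico a p, 1 / Real.sqrt |(p : ℝ) - q| ≤ 2 * Real.sqrt ((p : ℝ) - a) := by
  have h1 : ∑ q ∈ Finset.Ico a p, 1 / Real.sqrt |(p : ℝ) - q| ≤
      ∑ q ∈ Finset.Ico a p, ((fun q : ℕ => -(2 * Real.sqrt ((p : ℝ) - q))) (q + 1) -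
        (fun q : ℕ => -(2 * Real.sqrt ((p : ℝ) - q))) q) := by
    refine Finset.sum_le_sum fun q hq => ?_
    have hq2 := (Finset.mem_Ico.1 hq).2
    have h2 : (q : ℝ) + 1 ≤ p := by exact_mod_cast hq2
    rw [abs_of_nonneg (by linarith)]
    have h3 := inv_sqrt_le (x := (p : ℝ) - q) (by linarith)
    have h4 : (p : ℝ) - ((q + 1 : ℕ) : ℝ) = (p : ℝ) - q - 1 := by push_cast; ring
    simp only
    rw [h4]
    linarith
  have h2 := Finset.sum_Ico_sub (fun q : ℕ => -(2 * Real.sqrt ((p : ℝ) - q))) hap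
  simp only [sub_self, Real.sqrt_zero, mul_zero, neg_zero] at h1 h2
  linarith

/-- the sum over the points on the right -/
lemma sum_right (p b : ℕ) (hpb : p + 1 ≤ b) :
    ∑ q ∈ Finset.Ico (p + 1) b, 1 / Real.sqrt |(p : ℝ) - q| ≤ 2 * Real.sqrt ((b : ℝ) - 1 - p) := by
  have h1 : ∑ q ∈ Finset.Ico (p + 1) b, 1 / Real.sqrt |(p : ℝ) - q| ≤
      ∑ q ∈ Finset.Ico (p + 1) b, ((fun q : ℕ => (2 * Real.sqrt ((q : ℝ) - 1 - p))) (q + 1) -
        (fun q : ℕ => (2 * Real.sqrt ((q : ℝ) - 1 - p))) q) := by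
    refine Finset.sum_le_sum fun q hq => ?_
    have hq2 := (Finset.mem_Ico.1 hq).1
    have h2 : (p : ℝ) + 1 ≤ q := by exact_mod_cast hq2
    rw [abs_sub_comm, abs_of_nonneg (by linarith)]
    have h3 := inv_sqrt_le (x := (q : ℝ) - p) (by linarith)
    have h4 : ((q + 1 : ℕ) : ℝ) - 1 - p = (q : ℝ) - p := by push_cast; ring
    have h5 : (q : ℝ) - 1 - p = (q : ℝ) - p - 1 := by ring
    simp only
    rw [h4, h5]
    linarith
  have h2 := Finset.sum_Ico_sub (fun q : ℕ => (2 * Real.sqrt ((q : ℝ) - 1 - p))) hpb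
  have h6 : (((p + 1 : ℕ) : ℝ)) - 1 - p = 0 := by push_cast; ring
  simp only [h6, Real.sqrt_zero, mul_zero, sub_zero] at h1 h2
  linarith

/-- the sum over all pairs -/
lemma sum_pairs (X : ℕ) (hX : 1 ≤ X) :
    ∑ p ∈ Finset.Ico X (2 * X), ∑ q ∈ (Finset.Ico X (2 * X)).erase p,
      Real.sqrt X / Real.sqrt |(p : ℝ) - q| ≤ 4 * (X : ℝ) ^ 2 := by
  have hX0 : (0 : ℝ) ≤ X := Nat.cast_nonneg X
  have h1 : ∀ p ∈ Finset.Ico X (2 * X), ∑ q ∈ (Finset.Ico X (2 * X)).erase p,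
      Real.sqrt X / Real.sqrt |(p : ℝ) - q| ≤ 4 * (X : ℝ) := by
    intro p hp
    obtain ⟨hp1, hp2⟩ := Finset.mem_Ico.1 hp
    have h2 : (Finset.Ico X (2 * X)).erase p = Finset.Ico X p ∪ Finset.Ico (p + 1) (2 * X) := by
      ext q
      simp only [Finset.mem_erase, Finset.mem_Ico, Finset.mem_union]
      omega
    have h3 : Disjoint (Finset.Ico X p) (Finset.Ico (p + 1) (2 * X)) := by
      rw [Finset.disjoint_left]
      intro q hq hq2
      simp only [Finset.mem_Ico] at hq hq2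
      omega
    rw [h2, Finset.sum_union h3]
    have h4 := sum_left X p hp1
    have h5 := sum_right p (2 * X) hp2
    have h6 : Real.sqrt ((p : ℝ) - X) ≤ Real.sqrt X := by
      apply Real.sqrt_le_sqrt
      have : (p : ℝ) + 1 ≤ 2 * X := by exact_mod_cast hp2
      linarith
    have h7 : Real.sqrt (((2 * X : ℕ) : ℝ) - 1 - p) ≤ Real.sqrt X := by
      apply Real.sqrt_le_sqrt
      have : (X : ℝ) ≤ p := by exact_mod_cast hp1
      push_cast
      linarith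
    have h8 : ∀ s : Finset ℕ, ∑ q ∈ s, Real.sqrt X / Real.sqrt |(p : ℝ) - q| =
        Real.sqrt X * ∑ q ∈ s, 1 / Real.sqrt |(p : ℝ) - q| := by
      intro s
      rw [Finset.mul_sum]
      refine Finset.sum_congr rfl fun q _ => ?_
      ring
    rw [h8, h8, ← mul_add]
    have h9 : Real.sqrt X * Real.sqrt X = X := Real.mul_self_sqrt hX0
    have h10 : 0 ≤ Real.sqrt X := Real.sqrt_nonneg _
    calc Real.sqrt X * (∑ q ∈ Finset.Ico X p, 1 / Real.sqrt |(p : ℝ) - q| +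
          ∑ q ∈ Finset.Ico (p + 1) (2 * X), 1 / Real.sqrt |(p : ℝ) - q|)
        ≤ Real.sqrt X * (2 * Real.sqrt X + 2 * Real.sqrt X) := by
          gcongr
          · linarith
          · linarith
      _ = 4 * X := by linear_combination 4 * h9
  refine (Finset.sum_le_sum h1).trans ?_
  rw [Finset.sum_const, Nat.card_Ico, nsmul_eq_mul]
  have : ((2 * X - X : ℕ) : ℝ) = X := by
    rw [show 2 * X - X = X by omega]
  rw [this]
  exact le_of_eq (by ring)

/-- both bounds of (KSU) summed over all pairs -/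
lemma sum_min (T : ℝ) (hT : 1 ≤ T) (K X : ℕ) (hX : 1 ≤ X) (A : ℝ)
    (hA : A = Real.sqrt T + K / Real.sqrt T ∨
      A = Real.sqrt K * T ^ (1 / 6 : ℝ) + K * T ^ (-(1 / 6) : ℝ)) :
    ∑ p ∈ Finset.Ico X (2 * X), ∑ q ∈ (Finset.Ico X (2 * X)).erase p,
      min (Real.sqrt (T * |(p : ℝ) - q| / X) + K / Real.sqrt (T * |(p : ℝ) - q| / X))
      (Real.sqrt K * (T * |(p : ℝ) - q| / X) ^ (1 / 6 : ℝ) +
        K * (T * |(p : ℝ) - q| / X) ^ (-(1 / 6) : ℝ)) ≤ 5 * (X : ℝ) ^ 2 * A := by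
  have hX0 : (0 : ℝ) < X := by exact_mod_cast hX
  have hT0 : 0 < T := by linarith
  -- bounds for one pair
  obtain ⟨a, b, ha, hb, hAab, hpair⟩ : ∃ a b : ℝ, 0 ≤ a ∧ 0 ≤ b ∧ A = a + b ∧
      ∀ p ∈ Finset.Ico X (2 * X), ∀ q ∈ (Finset.Ico X (2 * X)).erase p,
      min (Real.sqrt (T * |(p : ℝ) - q| / X) + K / Real.sqrt (T * |(p : ℝ) - q| / X))
      (Real.sqrt K * (T * |(p : ℝ) - q| / X) ^ (1 / 6 : ℝ) +
        K * (T * |(p : ℝ) - q| / X) ^ (-(1 / 6) : ℝ)) ≤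
        a + b * (Real.sqrt X / Real.sqrt |(p : ℝ) - q|) := by
    have hD : ∀ p ∈ Finset.Ico X (2 * X), ∀ q ∈ (Finset.Ico X (2 * X)).erase p,
        1 ≤ |(p : ℝ) - q| ∧ |(p : ℝ) - q| ≤ X := by
      intro p hp q hq
      obtain ⟨hp1, hp2⟩ := Finset.mem_Ico.1 hp
      obtain ⟨hne, hq'⟩ := Finset.mem_erase.1 hq
      obtain ⟨hq1, hq2⟩ := Finset.mem_Ico.1 hq'
      have e1 : (X : ℝ) ≤ p := by exact_mod_cast hp1
      have e2 : (p : ℝ) + 1 ≤ 2 * X := by exact_mod_cast hp2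
      have e3 : (X : ℝ) ≤ q := by exact_mod_cast hq1
      have e4 : (q : ℝ) + 1 ≤ 2 * X := by exact_mod_cast hq2
      constructor
      · rcases lt_or_gt_of_ne hne with h | h
        · have : (q : ℝ) + 1 ≤ p := by exact_mod_cast h
          rw [abs_of_nonneg (by linarith)]
          linarith
        · have : (p : ℝ) + 1 ≤ q := by exact_mod_cast h
          rw [abs_of_nonpos (by linarith)]
          linarith
      · rw [abs_le]
        constructor <;> linarith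
    rcases hA with hA | hA
    · refine ⟨Real.sqrt T, K / Real.sqrt T, by positivity, by positivity, hA, ?_⟩
      intro p hp q hq
      obtain ⟨h1, h2⟩ := hD p hp q hq
      refine (min_le_left _ _).trans ?_
      generalize |(p : ℝ) - q| = D at h1 h2
      have hD0 : 0 < D := by linarith
      have e1 : Real.sqrt (T * D / X) ≤ Real.sqrt T := by
        apply Real.sqrt_le_sqrt
        rw [div_le_iff₀ hX0]
        nlinarith
      have e2 : Real.sqrt (T * D / X) = Real.sqrt T * Real.sqrt D / Real.sqrt X := by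
        rw [Real.sqrt_div (by positivity), Real.sqrt_mul hT0.le]
      have e3 : (K : ℝ) / Real.sqrt (T * D / X) = K / Real.sqrt T * (Real.sqrt X / Real.sqrt D) := by
        rw [e2]
        have s1 : Real.sqrt T ≠ 0 := (Real.sqrt_pos.2 hT0).ne'
        have s2 : Real.sqrt D ≠ 0 := (Real.sqrt_pos.2 hD0).ne'
        have s3 : Real.sqrt X ≠ 0 := (Real.sqrt_pos.2 hX0).ne'
        field_simp
      rw [e3]
      linarith
    · refine ⟨Real.sqrt K * T ^ (1 / 6 : ℝ), K * T ^ (-(1 / 6) : ℝ), by positivity,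
        by positivity, hA, ?_⟩
      intro p hp q hq
      obtain ⟨h1, h2⟩ := hD p hp q hq
      refine (min_le_right _ _).trans ?_
      generalize |(p : ℝ) - q| = D at h1 h2
      have hD0 : 0 < D := by linarith
      have hDX : 1 ≤ (X : ℝ) / D := by rw [le_div_iff₀ hD0]; linarith
      have e1 : (T * D / X) ^ (1 / 6 : ℝ) ≤ T ^ (1 / 6 : ℝ) := by
        apply Real.rpow_le_rpow (by positivity)
        · rw [div_le_iff₀ hX0]
          nlinarith
        · norm_num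
      have e2 : (T * D / X) ^ (-(1 / 6) : ℝ) ≤ T ^ (-(1 / 6) : ℝ) *
          (Real.sqrt X / Real.sqrt D) := by
        have e3 : T * D / X = T * ((X : ℝ) / D)⁻¹ := by
          field_simp
        rw [e3, Real.mul_rpow hT0.le (by positivity), Real.inv_rpow (by positivity),
          Real.rpow_neg (by positivity : (0 : ℝ) ≤ (X : ℝ) / D), inv_inv, ← Real.sqrt_div hX0.le,
          Real.sqrt_eq_rpow]
        gcongr
        norm_num
      have e4 : 0 ≤ Real.sqrt K := Real.sqrt_nonneg _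
      have e5 : (0 : ℝ) ≤ K := Nat.cast_nonneg K
      calc Real.sqrt K * (T * D / X) ^ (1 / 6 : ℝ) + K * (T * D / X) ^ (-(1 / 6) : ℝ)
          ≤ Real.sqrt K * T ^ (1 / 6 : ℝ) + K * (T ^ (-(1 / 6) : ℝ) *
            (Real.sqrt X / Real.sqrt D)) := by gcongr
        _ = _ := by ring
  have h1 : ∑ p ∈ Finset.Ico X (2 * X), ∑ q ∈ (Finset.Ico X (2 * X)).erase p,
      min (Real.sqrt (T * |(p : ℝ) - q| / X) + K / Real.sqrt (T * |(p : ℝ) - q| / X))
      (Real.sqrt K * (T * |(p : ℝ) - q| / X) ^ (1 / 6 : ℝ) +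
        K * (T * |(p : ℝ) - q| / X) ^ (-(1 / 6) : ℝ)) ≤
      ∑ p ∈ Finset.Ico X (2 * X), ∑ q ∈ (Finset.Ico X (2 * X)).erase p,
        (a + b * (Real.sqrt X / Real.sqrt |(p : ℝ) - q|)) :=
    Finset.sum_le_sum fun p hp => Finset.sum_le_sum fun q hq => hpair p hp q hq
  refine h1.trans ?_
  have h2 : ∑ p ∈ Finset.Ico X (2 * X), ∑ q ∈ (Finset.Ico X (2 * X)).erase p,
        (a + b * (Real.sqrt X / Real.sqrt |(p : ℝ) - q|)) =
      ∑ p ∈ Finset.Ico X (2 * X), (((Finset.Ico X (2 * X)).erase p).card : ℝ) * a +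
      b * ∑ p ∈ Finset.Ico X (2 * X), ∑ q ∈ (Finset.Ico X (2 * X)).erase p,
        Real.sqrt X / Real.sqrt |(p : ℝ) - q| := by
    rw [Finset.mul_sum, ← Finset.sum_add_distrib]
    refine Finset.sum_congr rfl fun p _ => ?_
    rw [Finset.sum_add_distrib, Finset.sum_const, nsmul_eq_mul, Finset.mul_sum]
  have hcard : ((Finset.Ico X (2 * X)).card : ℝ) = X := by
    rw [Nat.card_Ico, show 2 * X - X = X by omega]
  have h3 : ∑ p ∈ Finset.Ico X (2 * X), (((Finset.Ico X (2 * X)).erase p).card : ℝ) * a ≤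
      (X : ℝ) ^ 2 * a := by
    have : ∀ p ∈ Finset.Ico X (2 * X), (((Finset.Ico X (2 * X)).erase p).card : ℝ) * a ≤
        (X : ℝ) * a := by
      intro p _
      have hc : (((Finset.Ico X (2 * X)).erase p).card : ℝ) ≤ X := by
        rw [← hcard]
        exact_mod_cast Finset.card_erase_le
      gcongr
    refine (Finset.sum_le_sum this).trans ?_
    rw [Finset.sum_const, nsmul_eq_mul, hcard]
    exact le_of_eq (by ring)
  rw [h2]
  have h4 := sum_pairs X hX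
  calc _ ≤ (X : ℝ) ^ 2 * a + b * (4 * (X : ℝ) ^ 2) := by gcongr
    _ ≤ 5 * (X : ℝ) ^ 2 * A := by
      rw [hAab]
      have : 0 ≤ (X : ℝ) ^ 2 := by positivity
      nlinarith [mul_nonneg this ha, mul_nonneg this hb]

/-! ### The main theorem -/

lemma log_le_eventually : ∃ T₀ : ℝ, 1 ≤ T₀ ∧ ∀ T : ℝ, T₀ ≤ T → Real.log T ≤ T / 20 := by
  have h := Real.isLittleO_log_id_atTop.bound (show (0 : ℝ) < 1 / 20 by norm_num)
  rw [Filter.eventually_atTop] at h
  obtain ⟨T₀, h⟩ := h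
  refine ⟨max T₀ 1, le_max_right _ _, fun T hT => ?_⟩
  have h1 := h T ((le_max_left _ _).trans hT)
  have h2 : (1 : ℝ) ≤ T := (le_max_right _ _).trans hT
  rw [id_eq, Real.norm_eq_abs, Real.norm_of_nonneg (by linarith)] at h1
  have := le_abs_self (Real.log T)
  linarith

lemma log_Vv {d B l : ℝ} (hd : 0 < d) (hl : 0 < l) :
    0 < Vv d B l ∧ Real.log l = d * Real.log (Vv d B l) + d + B := by
  unfold Vv
  have h1 : 0 < l * Real.exp (-B - d) := by positivity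
  refine ⟨by positivity, ?_⟩
  rw [Real.log_rpow h1, Real.log_mul hl.ne' (Real.exp_pos _).ne', Real.log_exp]
  field_simp
  ring

lemma one_lt_log_a : 1 ≤ Real.log (38 / 10) := by
  rw [Real.le_log_iff_exp_le (by norm_num)]
  have := Real.exp_one_lt_d9
  linarith

lemma one_lt_log_b : 1 ≤ Real.log (160 / 41) := by
  rw [Real.le_log_iff_exp_le (by norm_num)]
  have := Real.exp_one_lt_d9
  linarith

/-- the distance from the stationary point -/
lemma far {d T u V : ℝ} (hd : 1 < d) (hT : 0 < T) (hV : 0 < V) (hu1 : 19 * T / 20 ≤ u)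
    (hu2 : u ≤ 41 * T / 20) (h : ¬ (T / 4 ≤ V ∧ V ≤ 8 * T)) :
    1 ≤ |d * Real.log u - d * Real.log V| := by
  have hu : 0 < u := by linarith
  rw [← mul_sub, ← Real.log_div hu.ne' hV.ne', abs_mul, abs_of_pos (by linarith : 0 < d)]
  have key : 1 ≤ |Real.log (u / V)| := by
    by_cases h1 : T / 4 ≤ V
    · have h2 : 8 * T < V := by
        by_contra h3
        exact h ⟨h1, not_lt.1 h3⟩
      have h3 : 160 / 41 ≤ V / u := by
        rw [le_div_iff₀ hu]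
        linarith
      have h4 := Real.log_le_log (by norm_num) h3
      have h5 := one_lt_log_b
      have h6 : Real.log (u / V) = -Real.log (V / u) := by
        rw [← Real.log_inv, inv_div]
      rw [h6, abs_neg]
      exact (h5.trans h4).trans (le_abs_self _)
    · push Not at h1
      have h3 : 38 / 10 ≤ u / V := by
        rw [le_div_iff₀ hV]
        linarith
      have h4 := Real.log_le_log (by norm_num) h3
      exact (one_lt_log_a.trans h4).trans (le_abs_self _)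
  nlinarith [abs_nonneg (Real.log (u / V))]

theorem blk (hKSU : T_KSU) (hIOA : T_IOA) (hIOB : T_IOB) : T_BLK := by
  intro d B η r hd hd2 hr
  obtain ⟨C₁, T₁, hC₁, h1⟩ := hKSU d B η hd hd2
  obtain ⟨C₂, T₂, hC₂, h2⟩ := hIOA d B η (by linarith)
  obtain ⟨C₃, T₃, hC₃, h3⟩ := hIOB d B η (by linarith)
  obtain ⟨T₄, hT₄, h4⟩ := log_le_eventually
  refine ⟨4 * C₃ + C₂ + Real.sqrt (5 * C₁), max (max T₁ T₂) (max T₃ T₄), by positivity, ?_⟩
  intro T hT H W y hH hW hHW hy M J K X α β γ A hM hK hX hα hβ hγ hA0 hA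
  have hT1 : T₁ ≤ T := ((le_max_left _ _).trans (le_max_left _ _)).trans hT
  have hT2 : T₂ ≤ T := ((le_max_right _ _).trans (le_max_left _ _)).trans hT
  have hT3 : T₃ ≤ T := ((le_max_left _ _).trans (le_max_right _ _)).trans hT
  have hT4 : T₄ ≤ T := ((le_max_right _ _).trans (le_max_right _ _)).trans hT
  have hlog := h4 T hT4
  have hTone : 1 ≤ T := hT₄.trans hT4
  have hT0 : 0 < T := by linarith
  have hW0 : 0 < W := by linarith
  have hWT : W ≤ T := by linarith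
  obtain ⟨N, hN⟩ : ∃ N : Finset ℕ, N = Finset.Ico M (J * M) := ⟨_, rfl⟩
  obtain ⟨Q, hQ⟩ : ∃ Q : Finset ℕ, Q = Finset.Ico K (2 * K) := ⟨_, rfl⟩
  obtain ⟨P, hP⟩ : ∃ P : Finset ℕ, P = Finset.Ico X (2 * X) := ⟨_, rfl⟩
  obtain ⟨g, hg⟩ : ∃ g : ℕ → ℕ → ℕ → ℂ, g = fun (n k p : ℕ) =>
      if T / 4 ≤ Vv d B ((n : ℝ) ^ r * k * p) ∧ Vv d B ((n : ℝ) ^ r * k * p) ≤ 8 * T then
        IO d B η H W y (Real.log ((n : ℝ) ^ r * k * p)) else 0 := ⟨_, rfl⟩
  have hNcard : (N.card : ℝ) ≤ J * M := by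
    rw [hN, Nat.card_Ico]
    have : J * M - M ≤ J * M := Nat.sub_le _ _
    exact_mod_cast this
  have hQcard : (Q.card : ℝ) = K := by
    rw [hQ, Nat.card_Ico, show 2 * K - K = K by omega]
  have hPcard : (P.card : ℝ) = X := by
    rw [hP, Nat.card_Ico, show 2 * X - X = X by omega]
  have hK0 : (0 : ℝ) < K := by exact_mod_cast hK
  have hX0 : (0 : ℝ) < X := by exact_mod_cast hX
  -- positivity of the frequencies
  have hpos : ∀ n ∈ N, ∀ k ∈ Q, ∀ p ∈ P, 0 < (n : ℝ) ^ r * k * p ∧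
      r * Real.log n + Real.log k + Real.log p = Real.log ((n : ℝ) ^ r * k * p) := by
    intro n hn k hk p hp
    rw [hN, Finset.mem_Ico] at hn
    rw [hQ, Finset.mem_Ico] at hk
    rw [hP, Finset.mem_Ico] at hp
    have hn0 : (0 : ℝ) < n := by
      have : 0 < n := by omega
      exact_mod_cast this
    have hk0 : (0 : ℝ) < k := by
      have : 0 < k := by omega
      exact_mod_cast this
    have hp0 : (0 : ℝ) < p := by
      have : 0 < p := by omega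
      exact_mod_cast this
    refine ⟨by positivity, ?_⟩
    rw [Real.log_mul (by positivity) hp0.ne', Real.log_mul (by positivity) hk0.ne',
      Real.log_rpow hn0]
  -- the terms without stationary point
  have hfar : ∀ n ∈ N, ∀ k ∈ Q, ∀ p ∈ P,
      ‖IO d B η H W y (r * Real.log n + Real.log k + Real.log p) - g n k p‖ ≤ 4 * C₃ / T := by
    intro n hn k hk p hp
    obtain ⟨hl, hlog2⟩ := hpos n hn k hk p hp
    rw [hlog2, hg]
    simp only
    split_ifs with hst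
    · rw [sub_self, norm_zero]
      positivity
    · rw [sub_zero]
      obtain ⟨hV0, hV⟩ := log_Vv (B := B) (by linarith : 0 < d) hl
      have h5 := h3 T hT3 H W y (Real.log ((n : ℝ) ^ r * k * p)) 1 hH (by linarith) hHW hy
        (by rw [div_le_one hT0]; exact hWT) (fun u hu => by
          obtain ⟨hu1, hu2⟩ := hu
          have hy2 := abs_le.1 (hy.trans hlog)
          have e : d * Real.log (u + y) + d + B - Real.log ((n : ℝ) ^ r * k * p) =
              d * Real.log (u + y) - d * Real.log (Vv d B ((n : ℝ) ^ r * k * p)) := by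
            linear_combination -hV
          rw [e]
          exact far hd hT0 hV0 (by linarith [hy2.1]) (by linarith [hy2.2]) hst)
      refine h5.trans ?_
      rw [one_pow, mul_one, div_le_div_iff₀ hW0 hT0]
      nlinarith
  -- the terms with stationary point
  have hgn : ∀ n k p, ‖g n k p‖ ≤ C₂ * Real.sqrt T := by
    intro n k p
    rw [hg]
    simp only
    split_ifs
    · refine (h2 T hT2 H W y _ hH hW0 hHW hy).trans ?_
      exact mul_le_mul_of_nonneg_left (min_le_right _ _) hC₂.le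
    · rw [norm_zero]
      positivity
  have hR : ∀ n ∈ N, ∑ p ∈ P, ∑ p' ∈ P, ‖∑ k ∈ Q, g n k p * (starRingEnd ℂ) (g n k p')‖ ≤
      X * (K * (C₂ ^ 2 * T)) + C₁ * T * (5 * (X : ℝ) ^ 2 * A) := by
    intro n hn
    have hn0 : (0 : ℝ) < n := by
      rw [hN, Finset.mem_Ico] at hn
      have : 0 < n := by omega
      exact_mod_cast this
    have hdiag : ∀ p ∈ P, ‖∑ k ∈ Q, g n k p * (starRingEnd ℂ) (g n k p)‖ ≤
        K * (C₂ ^ 2 * T) := by
      intro p _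
      refine (norm_sum_le _ _).trans ?_
      have : ∀ k ∈ Q, ‖g n k p * (starRingEnd ℂ) (g n k p)‖ ≤ C₂ ^ 2 * T := by
        intro k _
        rw [norm_mul, RCLike.norm_conj]
        have h5 := hgn n k p
        have h6 : Real.sqrt T ^ 2 = T := Real.sq_sqrt hT0.le
        calc ‖g n k p‖ * ‖g n k p‖ ≤ (C₂ * Real.sqrt T) * (C₂ * Real.sqrt T) := by gcongr
          _ = C₂ ^ 2 * T := by linear_combination C₂ ^ 2 * h6
      refine (Finset.sum_le_sum this).trans ?_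
      rw [Finset.sum_const, nsmul_eq_mul, hQcard]
    have hoff : ∀ p ∈ P, ∀ q ∈ P.erase p, ‖∑ k ∈ Q, g n k p * (starRingEnd ℂ) (g n k q)‖ ≤
        C₁ * T * min (Real.sqrt (T * |(p : ℝ) - q| / X) + K / Real.sqrt (T * |(p : ℝ) - q| / X))
          (Real.sqrt K * (T * |(p : ℝ) - q| / X) ^ (1 / 6 : ℝ) +
            K * (T * |(p : ℝ) - q| / X) ^ (-(1 / 6) : ℝ)) := by
      intro p hp q hq
      obtain ⟨hne, hq'⟩ := Finset.mem_erase.1 hq
      have h5 := h1 T hT1 H W y hH hW hHW hy ((n : ℝ) ^ r) K X p q (by positivity) hK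
        (by rw [← hP]; exact hp) (by rw [← hP]; exact hq') (Ne.symm hne)
      refine le_trans (le_of_eq ?_) h5
      rw [hQ]
      congr 1
      refine Finset.sum_congr rfl fun k _ => ?_
      rw [hg]
      simp only
      by_cases c1 : T / 4 ≤ Vv d B ((n : ℝ) ^ r * k * p) ∧ Vv d B ((n : ℝ) ^ r * k * p) ≤ 8 * T
      · by_cases c2 : T / 4 ≤ Vv d B ((n : ℝ) ^ r * k * q) ∧ Vv d B ((n : ℝ) ^ r * k * q) ≤ 8 * T
        · rw [if_pos c1, if_pos c2, if_pos ⟨c1, c2⟩]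
        · rw [if_neg c2, map_zero, mul_zero, if_neg (fun c => c2 c.2)]
      · rw [if_neg c1, zero_mul, if_neg (fun c => c1 c.1)]
    have hsplit : ∑ p ∈ P, ∑ p' ∈ P, ‖∑ k ∈ Q, g n k p * (starRingEnd ℂ) (g n k p')‖ =
        ∑ p ∈ P, ‖∑ k ∈ Q, g n k p * (starRingEnd ℂ) (g n k p)‖ +
        ∑ p ∈ P, ∑ p' ∈ P.erase p, ‖∑ k ∈ Q, g n k p * (starRingEnd ℂ) (g n k p')‖ := by
      rw [← Finset.sum_add_distrib]
      refine Finset.sum_congr rfl fun p hp => ?_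
      exact (Finset.add_sum_erase P
        (fun p' => ‖∑ k ∈ Q, g n k p * (starRingEnd ℂ) (g n k p')‖) hp).symm
    rw [hsplit]
    apply add_le_add
    · refine (Finset.sum_le_sum hdiag).trans ?_
      rw [Finset.sum_const, nsmul_eq_mul, hPcard]
    · refine (Finset.sum_le_sum fun p hp => Finset.sum_le_sum fun q hq => hoff p hp q hq).trans ?_
      simp_rw [← Finset.mul_sum]
      have h5 := sum_min T hTone K X hX A hA
      rw [hP]
      gcongr
  -- the bound for the stationary part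
  have hS1 : ‖∑ n ∈ N, ∑ k ∈ Q, ∑ p ∈ P, α n * β k * γ p * g n k p‖ ≤
      J * M * (C₂ * K * Real.sqrt (X * T) + Real.sqrt (5 * C₁) * X * Real.sqrt (K * T * A)) := by
    have h5 := bilin N Q P α β γ g _ hα hβ hγ hR
    have e1 : Real.sqrt (X * T) ^ 2 = X * T := Real.sq_sqrt (by positivity)
    have e2 : Real.sqrt (K * T * A) ^ 2 = K * T * A := Real.sq_sqrt (by positivity)
    have e3 : Real.sqrt (5 * C₁) ^ 2 = 5 * C₁ := Real.sq_sqrt (by positivity)
    have hNn : (0 : ℝ) ≤ N.card := Nat.cast_nonneg _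
    have e4 : ((N.card : ℝ) * Q.card) * (N.card * (X * (K * (C₂ ^ 2 * T)) +
        C₁ * T * (5 * (X : ℝ) ^ 2 * A))) ≤
        ((J * M : ℝ) * (C₂ * K * Real.sqrt (X * T) +
          Real.sqrt (5 * C₁) * X * Real.sqrt (K * T * A))) ^ 2 := by
      obtain ⟨a, ha⟩ : ∃ a : ℝ, a = C₂ * K * Real.sqrt (X * T) := ⟨_, rfl⟩
      obtain ⟨b, hb⟩ : ∃ b : ℝ, b = Real.sqrt (5 * C₁) * X * Real.sqrt (K * T * A) := ⟨_, rfl⟩
      have ha0 : 0 ≤ a := by rw [ha]; positivity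
      have hb0 : 0 ≤ b := by rw [hb]; positivity
      have e5 : (K : ℝ) * (X * (K * (C₂ ^ 2 * T)) + C₁ * T * (5 * (X : ℝ) ^ 2 * A)) =
          a ^ 2 + b ^ 2 := by
        have e6 : a ^ 2 = C₂ ^ 2 * K ^ 2 * (X * T) := by
          rw [ha, mul_pow, mul_pow, e1]
        have e7 : b ^ 2 = 5 * C₁ * X ^ 2 * (K * T * A) := by
          rw [hb, mul_pow, mul_pow, e2, e3]
        rw [e6, e7]
        ring
      rw [← ha, ← hb, hQcard]
      have e8 : (N.card : ℝ) * K * (N.card * (X * (K * (C₂ ^ 2 * T)) +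
          C₁ * T * (5 * (X : ℝ) ^ 2 * A))) = (N.card : ℝ) ^ 2 * (a ^ 2 + b ^ 2) := by
        rw [← e5]
        ring
      rw [e8, mul_pow]
      have e9 : a ^ 2 + b ^ 2 ≤ (a + b) ^ 2 := by nlinarith [mul_nonneg ha0 hb0]
      have e10 : 0 ≤ a ^ 2 + b ^ 2 := by positivity
      calc (N.card : ℝ) ^ 2 * (a ^ 2 + b ^ 2) ≤ (J * M : ℝ) ^ 2 * (a ^ 2 + b ^ 2) := by gcongr
        _ ≤ (J * M : ℝ) ^ 2 * (a + b) ^ 2 := by gcongr
    exact le_of_sq_le_sq (h5.trans e4) (by positivity)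
  -- the bound for the rest
  have hS2 : ‖∑ n ∈ N, ∑ k ∈ Q, ∑ p ∈ P, α n * β k * γ p *
      (IO d B η H W y (r * Real.log n + Real.log k + Real.log p) - g n k p)‖ ≤
      J * M * (K * (X * (4 * C₃ / T))) := by
    have h5 : ∀ n ∈ N, ‖∑ k ∈ Q, ∑ p ∈ P, α n * β k * γ p *
        (IO d B η H W y (r * Real.log n + Real.log k + Real.log p) - g n k p)‖ ≤
        K * (X * (4 * C₃ / T)) := by
      intro n hn
      refine (norm_sum_le _ _).trans ?_
      rw [← hQcard, ← nsmul_eq_mul, ← Finset.sum_const]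
      refine Finset.sum_le_sum fun k hk => ?_
      refine (norm_sum_le _ _).trans ?_
      rw [← hPcard, ← nsmul_eq_mul, ← Finset.sum_const]
      refine Finset.sum_le_sum fun p hp => ?_
      rw [norm_mul, norm_mul, norm_mul]
      have h6 := hfar n hn k hk p hp
      have h7 : ‖α n‖ * ‖β k‖ * ‖γ p‖ ≤ 1 := by
        have := hα n
        have := hβ k
        have := hγ p
        calc ‖α n‖ * ‖β k‖ * ‖γ p‖ ≤ 1 * 1 * 1 := by gcongr
          _ = 1 := by norm_num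
      calc ‖α n‖ * ‖β k‖ * ‖γ p‖ *
            ‖IO d B η H W y (r * Real.log n + Real.log k + Real.log p) - g n k p‖
          ≤ 1 * (4 * C₃ / T) := by gcongr
        _ = 4 * C₃ / T := one_mul _
    refine (norm_sum_le _ _).trans ((Finset.sum_le_sum h5).trans ?_)
    rw [Finset.sum_const, nsmul_eq_mul]
    gcongr
  -- conclusion
  have hsum : ∑ n ∈ N, ∑ k ∈ Q, ∑ p ∈ P,
      α n * β k * γ p * IO d B η H W y (r * Real.log n + Real.log k + Real.log p) =
      (∑ n ∈ N, ∑ k ∈ Q, ∑ p ∈ P, α n * β k * γ p * g n k p) +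
      ∑ n ∈ N, ∑ k ∈ Q, ∑ p ∈ P, α n * β k * γ p *
        (IO d B η H W y (r * Real.log n + Real.log k + Real.log p) - g n k p) := by
    rw [← Finset.sum_add_distrib]
    refine Finset.sum_congr rfl fun n _ => ?_
    rw [← Finset.sum_add_distrib]
    refine Finset.sum_congr rfl fun k _ => ?_
    rw [← Finset.sum_add_distrib]
    refine Finset.sum_congr rfl fun p _ => ?_
    ring
  rw [← hN, ← hQ, ← hP, hsum]
  refine (norm_add_le _ _).trans ((add_le_add hS1 hS2).trans ?_)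
  have p1 : (0 : ℝ) ≤ (J : ℝ) * ((M : ℝ) * K * X / T) := by positivity
  have p2 : (0 : ℝ) ≤ (J : ℝ) * (M * (K : ℝ) * Real.sqrt (X * T)) := by positivity
  have p3 : (0 : ℝ) ≤ (J : ℝ) * (M * X * Real.sqrt (K * T * A)) := by positivity
  have p4 : 0 ≤ Real.sqrt (5 * C₁) := Real.sqrt_nonneg _
  have e : (4 * C₃ + C₂ + Real.sqrt (5 * C₁)) * (J : ℝ) * ((M : ℝ) * K * X / T +
      M * (K : ℝ) * Real.sqrt (X * T) + M * X * Real.sqrt (K * T * A)) -
      (J * M * (C₂ * K * Real.sqrt (X * T) + Real.sqrt (5 * C₁) * X * Real.sqrt (K * T * A)) +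
      J * M * (K * (X * (4 * C₃ / T)))) =
      (C₂ + Real.sqrt (5 * C₁)) * ((J : ℝ) * ((M : ℝ) * K * X / T)) +
      (4 * C₃ + Real.sqrt (5 * C₁)) * ((J : ℝ) * (M * (K : ℝ) * Real.sqrt (X * T))) +
      (4 * C₃ + C₂) * ((J : ℝ) * (M * X * Real.sqrt (K * T * A))) := by
    ring
  have q1 : 0 ≤ (C₂ + Real.sqrt (5 * C₁)) * ((J : ℝ) * ((M : ℝ) * K * X / T)) := by positivity
  have q2 : 0 ≤ (4 * C₃ + Real.sqrt (5 * C₁)) * ((J : ℝ) * (M * (K : ℝ) * Real.sqrt (X * T))) := by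
    positivity
  have q3 : 0 ≤ (4 * C₃ + C₂) * ((J : ℝ) * (M * X * Real.sqrt (K * T * A))) := by positivity
  linarith

end Pool.Agent.H67.DP.BLK
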